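import Pool.Agent.Helper38.ZS.Stmts

/-!
# Zonotope signing with cheap coordinates (Theorem Y2 of helper37): statements

`V` are the signed coordinates, `W` the cheap coordinates (weight `th j ^ (1 / 200)`), all other
coordinates have weight `L`.
-/

namespace Pool.Agent.Helper38.ZS2

open Finset Pool.Agent.Helper38.ZS
open scoped Classical

noncomputable section

/-- cheap coordinates: for `j` in `W` the vector `B j` of the range of `P` is `1` at `j`, `0` at the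
other points of `W`, and has small square sum `≤ th j ≤ θ0` outside `W` -/
structure Cheap {ι : Type} [Fintype ι] (P : ι → ι → ℝ) (W : Finset ι) (th : ι → ℝ) (θ0 : ℝ)
    (B : ι → ι → ℝ) : Prop where
  pos : ∀ j ∈ W, 0 < th j
  le : ∀ j ∈ W, th j ≤ θ0
  rg : ∀ j ∈ W, ap P (B j) = B j
  one : ∀ j ∈ W, B j j = 1
  off : ∀ j ∈ W, ∀ k ∈ W, k ≠ j → B j k = 0
  sm : ∀ j ∈ W, ∑ i ∈ Wᶜ, B j i ^ 2 ≤ th j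

/-- 1. level selection with weights -/
def ST_LEVEL2 : Prop :=
  ∃ C0 : ℝ, 1 ≤ C0 ∧ ∀ (ι : Type) [Fintype ι] (V : Finset ι) (f ξ w : ι → ℝ) (β : ℝ),
    0 < β → β ≤ 1 → (∀ i, 0 ≤ w i) → (∀ i ∈ V, |ξ i| ≤ 1) →
    β * l1 f V + ∑ i ∈ Vᶜ, w i * |f i| < ∑ i ∈ V, ξ i * f i →
    ∃ s : ℝ, 0 < s ∧ 0 < ∑ i ∈ V, |TT (s * f i)| ∧
      β / 2 * ∑ i ∈ V, |TT (s * f i)| < ∑ i ∈ V, ξ i * TT (s * f i) ∧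
      ∀ h : ℤ, (2 : ℝ) ^ h * (β * (#(V.filter (fun i => (2 : ℝ) ^ (h + 1) ≤ |s * f i|)) : ℝ)
          + ∑ i ∈ Vᶜ.filter (fun i => (2 : ℝ) ^ (h + 1) ≤ |s * f i|), w i)
        ≤ C0 * (2 : ℝ) ^ (|(h : ℝ)| / 40) * ∑ i ∈ V, |TT (s * f i)|

/-- 2. weighted sums over a profile -/
def ST_WPROF : Prop :=
  ∃ C0 : ℝ, 1 ≤ C0 ∧ ∀ (ι : Type) [Fintype ι] (X : Finset ι) (g w : ι → ℝ) (A : ℝ),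
    0 ≤ A → (∀ i ∈ X, 0 ≤ w i) →
    (∀ h : ℤ, (2 : ℝ) ^ h * ∑ i ∈ X.filter (fun i => (2 : ℝ) ^ (h + 1) ≤ |g i|), w i
      ≤ A * (2 : ℝ) ^ (|(h : ℝ)| / 40)) →
    ∑ i ∈ X, w i * min (|g i| ^ (97 / 100 : ℝ)) (|g i| ^ (103 / 100 : ℝ)) ≤ C0 * A

/-- 3. quantisation of the cheap coordinates -/
def ST_QUANT : Prop :=
  ∀ δ γ : ℝ, 0 < δ → 0 < γ → γ ≤ 1 → ∃ θ0 : ℝ, 0 < θ0 ∧ θ0 ≤ 1 ∧
    ∀ (ι : Type) [Fintype ι] (P : ι → ι → ℝ) (W : Finset ι) (th : ι → ℝ) (B : ι → ι → ℝ)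
      (g : ι → ℝ) (A : ℝ),
      Cheap P W th θ0 B → ap P g = g → 0 ≤ A →
      (∀ h : ℤ, (2 : ℝ) ^ h * ∑ i ∈ W.filter (fun i => (2 : ℝ) ^ (h + 1) ≤ |g i|),
        th i ^ (1 / 200 : ℝ) ≤ A * (2 : ℝ) ^ (|(h : ℝ)| / 40)) →
      ∃ g' : ι → ℝ, ap P g' = g' ∧ ∑ i ∈ Wᶜ, (g' i - g i) ^ 2 ≤ δ * A ∧
        nu g' (W.filter (fun i => γ ≤ |g' i|)) ≤ δ * A ∧
        ∑ i ∈ W.filter (fun i => |g' i| < γ), g' i ^ 2 ≤ δ * A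

/-- 4. a bad vector has a bad piece (same output as `ST_PIECE`) -/
def ST_PIECE2 : Prop :=
  ∀ β : ℝ, 0 < β → β ≤ 1 → ∃ C1 : ℝ, 1 ≤ C1 ∧ ∀ ε : ℝ, 0 < ε → ε ≤ 1 →
    ∃ γ κ C : ℝ, 0 < γ ∧ γ ≤ 1 ∧ 0 < κ ∧ κ ≤ 1 ∧ 1 ≤ C ∧
    ∀ L : ℝ, 1 ≤ L → ∃ θ0 : ℝ, 0 < θ0 ∧ θ0 ≤ 1 ∧
    ∀ (ι : Type) [Fintype ι] (P : ι → ι → ℝ) (V W : Finset ι) (th : ι → ℝ) (B : ι → ι → ℝ)
      (f ξ : ι → ℝ),
      IsPr P → Disjoint V W → Cheap P W th θ0 B → ap P f = f → (∀ i ∈ V, |ξ i| ≤ 1) →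
      β * l1 f V + L * l1 f (V ∪ W)ᶜ + ∑ i ∈ W, th i ^ (1 / 200 : ℝ) * |f i|
        < ∑ i ∈ V, ξ i * f i →
      ∃ (g : ι → ℝ) (Z : Finset ι) (m : ℝ), m = ∑ i ∈ Z ∩ V, |TT (g i)| ∧ 0 < m ∧
        β / 4 * m < ∑ i ∈ Z ∩ V, ξ i * TT (g i) ∧ (∀ i ∈ Z, γ ≤ |g i|) ∧ Link P κ Z g ∧
        nu g Z ≤ C * m ∧ nu g (Z \ V) ≤ C / L * m ∧ DD P g Z ≤ ε * m ∧
        (#((Z ∩ V).filter (fun i => 1 / 2 ≤ |g i|)) : ℝ) ≤ C1 * m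

/-- 5. zonotope signing with cheap coordinates (Theorem Y2) -/
def ST_SIGN2 : Prop :=
  ∀ β : ℝ, 0 < β → β ≤ 1 → ∃ η L θ0 : ℝ, 0 < η ∧ 1 ≤ L ∧ 0 < θ0 ∧ θ0 ≤ 1 ∧
    ∀ (ι : Type) [Fintype ι] (P : ι → ι → ℝ) (V W : Finset ι) (th : ι → ℝ) (B : ι → ι → ℝ),
      IsPr P → (∀ i ∈ V, P i i ≤ η) → Disjoint V W → Cheap P W th θ0 B →
      ∃ ξ : ι → ℝ, (∀ i, ξ i = 1 ∨ ξ i = -1) ∧
        ∀ f : ι → ℝ, ap P f = f → ∑ i ∈ V, ξ i * f i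
          ≤ β * l1 f V + L * l1 f (V ∪ W)ᶜ + ∑ i ∈ W, th i ^ (1 / 200 : ℝ) * |f i|

end

end Pool.Agent.Helper38.ZS2
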