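import Pool.Agent.Helper38.ZS2.Stmts
import Pool.Agent.Helper38.ZS.Norm

/-!
# Quantisation of the cheap coordinates
-/

namespace Pool.Agent.Helper38.ZS2

open Finset Pool.Agent.Helper38.ZS
open scoped Classical

noncomputable section

/-! ## pointwise estimates -/

theorem exists_exp {x : ℝ} (hx : 0 < x) : ∃ t : ℝ, x = Real.exp t :=
  ⟨Real.log x, (Real.exp_log hx).symm⟩

/-- `u x = min (x ^ .97) (x ^ 1.03)` -/
def uu (x : ℝ) : ℝ := min (|x| ^ (97 / 100 : ℝ)) (|x| ^ (103 / 100 : ℝ))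

theorem uu_nonneg (x : ℝ) : 0 ≤ uu x := by unfold uu; positivity

theorem pt1 {θ θ0 x : ℝ} (hθ : 0 < θ) (h0 : θ ≤ θ0) (h1 : θ0 ≤ 1) (hx : 0 < |x|)
    (ha : θ ^ (1 / 10 : ℝ) ≤ |x|) (hb : |x| < θ ^ (-(9 / 10) : ℝ)) :
    |x| * θ ^ (-(9 / 10) : ℝ) * θ ≤ θ0 ^ (1 / 100 : ℝ) * (θ ^ (1 / 200 : ℝ) * uu x) := by
  obtain ⟨s, rfl⟩ := exists_exp hθ
  obtain ⟨s0, rfl⟩ := exists_exp (hθ.trans_le h0)
  obtain ⟨t, ht⟩ := exists_exp hx
  have hs : s ≤ s0 := Real.exp_le_exp.1 h0
  have hs0 : s0 ≤ 0 := by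
    have : Real.exp s0 ≤ Real.exp 0 := by simpa using h1
    exact Real.exp_le_exp.1 this
  unfold uu
  rw [ht] at ha hb ⊢
  simp only [← Real.exp_mul] at ha hb ⊢
  have ha' := Real.exp_le_exp.1 ha
  have hb' := Real.exp_lt_exp.1 hb
  rw [mul_min_of_nonneg _ _ (Real.exp_pos _).le, mul_min_of_nonneg _ _ (Real.exp_pos _).le]
  simp only [← Real.exp_add]
  refine le_min ?_ ?_ <;> apply Real.exp_le_exp.2 <;> linarith

theorem pt2 {θ θ0 x : ℝ} (hθ : 0 < θ) (h0 : θ ≤ θ0) (h1 : θ0 ≤ 1) (hx : 0 < |x|)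
    (ha : θ ^ (1 / 10 : ℝ) ≤ |x|) (hb : |x| < θ ^ (-(9 / 10) : ℝ)) :
    |x| / θ ^ (-(9 / 10) : ℝ) * (θ ^ (-(9 / 10) : ℝ)) ^ (19 / 20 : ℝ)
      ≤ θ0 ^ (1 / 100 : ℝ) * (θ ^ (1 / 200 : ℝ) * uu x) := by
  obtain ⟨s, rfl⟩ := exists_exp hθ
  obtain ⟨s0, rfl⟩ := exists_exp (hθ.trans_le h0)
  obtain ⟨t, ht⟩ := exists_exp hx
  have hs : s ≤ s0 := Real.exp_le_exp.1 h0
  have hs0 : s0 ≤ 0 := by
    have : Real.exp s0 ≤ Real.exp 0 := by simpa using h1
    exact Real.exp_le_exp.1 this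
  unfold uu
  rw [ht] at ha hb ⊢
  simp only [← Real.exp_mul, ← Real.exp_sub] at ha hb ⊢
  have ha' := Real.exp_le_exp.1 ha
  have hb' := Real.exp_lt_exp.1 hb
  rw [mul_min_of_nonneg _ _ (Real.exp_pos _).le, mul_min_of_nonneg _ _ (Real.exp_pos _).le]
  simp only [← Real.exp_add]
  refine le_min ?_ ?_ <;> apply Real.exp_le_exp.2 <;> linarith

theorem pt3 {θ θ0 x : ℝ} (hθ : 0 < θ) (h0 : θ ≤ θ0) (h1 : θ0 ≤ 1)
    (hb : θ ^ (-(9 / 10) : ℝ) ≤ |x|) :
    |x| ^ (19 / 20 : ℝ) ≤ θ0 ^ (1 / 100 : ℝ) * (θ ^ (1 / 200 : ℝ) * uu x) := by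
  have hx : 0 < |x| := (Real.rpow_pos_of_pos hθ _).trans_le hb
  obtain ⟨s, rfl⟩ := exists_exp hθ
  obtain ⟨s0, rfl⟩ := exists_exp (hθ.trans_le h0)
  obtain ⟨t, ht⟩ := exists_exp hx
  have hs : s ≤ s0 := Real.exp_le_exp.1 h0
  have hs0 : s0 ≤ 0 := by
    have : Real.exp s0 ≤ Real.exp 0 := by simpa using h1
    exact Real.exp_le_exp.1 this
  unfold uu
  rw [ht] at hb ⊢
  simp only [← Real.exp_mul] at hb ⊢
  have hb' := Real.exp_le_exp.1 hb
  rw [mul_min_of_nonneg _ _ (Real.exp_pos _).le, mul_min_of_nonneg _ _ (Real.exp_pos _).le]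
  simp only [← Real.exp_add]
  refine le_min ?_ ?_ <;> apply Real.exp_le_exp.2 <;> linarith

theorem pt4 {θ θ0 x : ℝ} (hθ : 0 < θ) (h0 : θ ≤ θ0) (h1 : θ0 ≤ 1)
    (hb : |x| < θ ^ (1 / 10 : ℝ)) :
    x ^ 2 ≤ θ0 ^ (1 / 100 : ℝ) * (θ ^ (1 / 200 : ℝ) * uu x) := by
  rcases eq_or_ne x 0 with hx0 | hx0
  · have h3 := uu_nonneg x
    have h2 : 0 < θ0 := hθ.trans_le h0
    have h4 : x ^ 2 = 0 := by rw [hx0]; norm_num
    rw [h4]
    exact mul_nonneg (Real.rpow_nonneg h2.le _) (mul_nonneg (Real.rpow_nonneg hθ.le _) h3)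
  have hx : 0 < |x| := abs_pos.2 hx0
  obtain ⟨s, rfl⟩ := exists_exp hθ
  obtain ⟨s0, rfl⟩ := exists_exp (hθ.trans_le h0)
  obtain ⟨t, ht⟩ := exists_exp hx
  have hs : s ≤ s0 := Real.exp_le_exp.1 h0
  have hs0 : s0 ≤ 0 := by
    have : Real.exp s0 ≤ Real.exp 0 := by simpa using h1
    exact Real.exp_le_exp.1 this
  unfold uu
  rw [← sq_abs x, ht]
  rw [ht] at hb
  rw [← Real.rpow_natCast]
  simp only [← Real.exp_mul] at hb ⊢
  have hb' := Real.exp_lt_exp.1 hb
  rw [mul_min_of_nonneg _ _ (Real.exp_pos _).le, mul_min_of_nonneg _ _ (Real.exp_pos _).le]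
  simp only [← Real.exp_add]
  refine le_min ?_ ?_ <;> apply Real.exp_le_exp.2 <;> push_cast <;> linarith

/-! ## choice of the values -/

theorem choose_eps {ι : Type} (S U : Finset ι) (a p ν : ι → ℝ) (b : ι → ι → ℝ)
    (hp : ∀ j ∈ S, 0 ≤ p j ∧ p j ≤ 1) :
    ∃ ε : ι → ℝ, (∀ j, ε j = 0 ∨ ε j = 1) ∧
      ∑ i ∈ U, (∑ j ∈ S, (ε j - p j) * a j * b j i) ^ 2 + ∑ j ∈ S, ε j * ν j
        ≤ ∑ j ∈ S, (p j * a j ^ 2 * ∑ i ∈ U, b j i ^ 2 + p j * ν j) := by
  induction S using Finset.induction_on with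
  | empty => exact ⟨fun _ => 0, fun _ => Or.inl rfl, by simp⟩
  | insert k S hk ih =>
    obtain ⟨ε, hε, h⟩ := ih (fun j hj => hp j (Finset.mem_insert_of_mem hj))
    obtain ⟨hp0, hp1⟩ := hp k (Finset.mem_insert_self k S)
    set v : ι → ℝ := fun i => ∑ j ∈ S, (ε j - p j) * a j * b j i with hv
    -- the two possible values
    have key : ∀ e : ℝ,
        ∑ i ∈ U, (∑ j ∈ insert k S, (Function.update ε k e j - p j) * a j * b j i) ^ 2
          + ∑ j ∈ insert k S, Function.update ε k e j * ν j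
        = ∑ i ∈ U, v i ^ 2 + ∑ j ∈ S, ε j * ν j + 2 * (e - p k) * a k * ∑ i ∈ U, v i * b k i
          + (e - p k) ^ 2 * a k ^ 2 * ∑ i ∈ U, b k i ^ 2 + e * ν k := by
      intro e
      have e1 : ∀ i, ∑ j ∈ insert k S, (Function.update ε k e j - p j) * a j * b j i
          = (e - p k) * a k * b k i + v i := by
        intro i
        rw [Finset.sum_insert hk, Function.update_self]
        congr 1
        refine Finset.sum_congr rfl fun j hj => ?_
        rw [Function.update_of_ne (ne_of_mem_of_not_mem hj hk)]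
      have e2 : ∑ j ∈ insert k S, Function.update ε k e j * ν j = e * ν k + ∑ j ∈ S, ε j * ν j := by
        rw [Finset.sum_insert hk, Function.update_self]
        congr 1
        refine Finset.sum_congr rfl fun j hj => ?_
        rw [Function.update_of_ne (ne_of_mem_of_not_mem hj hk)]
      rw [e2, Finset.sum_congr rfl (fun i _ => by rw [e1 i])]
      have e3 : ∑ i ∈ U, ((e - p k) * a k * b k i + v i) ^ 2
          = ∑ i ∈ U, v i ^ 2 + 2 * (e - p k) * a k * ∑ i ∈ U, v i * b k i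
            + (e - p k) ^ 2 * a k ^ 2 * ∑ i ∈ U, b k i ^ 2 := by
        rw [Finset.mul_sum, Finset.mul_sum, ← Finset.sum_add_distrib, ← Finset.sum_add_distrib]
        refine Finset.sum_congr rfl fun i _ => ?_
        ring
      rw [e3]
      ring
    have hup : ∀ e : ℝ, (e = 0 ∨ e = 1) → ∀ j, Function.update ε k e j = 0
        ∨ Function.update ε k e j = 1 := by
      intro e he j
      by_cases hj : j = k
      · rw [hj, Function.update_self]; exact he
      · rw [Function.update_of_ne hj]; exact hε j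
    rw [Finset.sum_insert hk]
    set X := ∑ i ∈ U, v i ^ 2 + ∑ j ∈ S, ε j * ν j with hX
    set Y := ∑ i ∈ U, v i * b k i with hY
    set N := ∑ i ∈ U, b k i ^ 2 with hN
    have hN0 : 0 ≤ N := Finset.sum_nonneg fun _ _ => sq_nonneg _
    set R := ∑ j ∈ S, (p j * a j ^ 2 * ∑ i ∈ U, b j i ^ 2 + p j * ν j) with hR
    have k0 := key 0
    have k1 := key 1
    by_cases hc : X + 2 * (0 - p k) * a k * Y + (0 - p k) ^ 2 * a k ^ 2 * N + 0 * ν k
        ≤ p k * a k ^ 2 * N + p k * ν k + R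
    · exact ⟨Function.update ε k 0, hup 0 (Or.inl rfl), by rw [k0]; exact hc⟩
    · refine ⟨Function.update ε k 1, hup 1 (Or.inr rfl), ?_⟩
      rw [k1]
      push Not at hc
      have hXR : X ≤ R := h
      by_contra hd
      push Not at hd
      -- average
      have h3 : 0 ≤ a k ^ 2 * N := by positivity
      have a1 := mul_le_mul_of_nonneg_left hd.le hp0
      have a0 := mul_le_mul_of_nonneg_left hc.le (sub_nonneg.2 hp1)
      rcases hp0.eq_or_lt with h0 | h0
      · rw [← h0] at hc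
        nlinarith
      · have a1' := mul_lt_mul_of_pos_left hd h0
        have h4 : 0 ≤ p k ^ 2 * (a k ^ 2 * N) := by positivity
        nlinarith

/-! ## the quantised vector -/

theorem ap_comb {ι : Type} [Fintype ι] (P : ι → ι → ℝ) (S : Finset ι) (c : ι → ℝ) (g : ι → ℝ)
    (B : ι → ι → ℝ) (hg : ap P g = g) (hB : ∀ j ∈ S, ap P (B j) = B j) :
    ap P (fun i => g i + ∑ j ∈ S, c j * B j i) = fun i => g i + ∑ j ∈ S, c j * B j i := by
  induction S using Finset.induction_on with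
  | empty => simpa using hg
  | insert k S hk ih =>
    have h1 := ih (fun j hj => hB j (Finset.mem_insert_of_mem hj))
    have h2 := hB k (Finset.mem_insert_self k S)
    funext i
    have e : (fun i => g i + ∑ j ∈ insert k S, c j * B j i)
        = fun i => (g i + ∑ j ∈ S, c j * B j i) + c k * B k i := by
      funext i
      rw [Finset.sum_insert hk]
      ring
    rw [e, ap_add, ap_smul, h1, h2, Finset.sum_insert hk]
    ring

theorem st_quant (hW : ST_WPROF) : ST_QUANT := by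
  obtain ⟨C0, hC0, hprof⟩ := hW
  intro δ γ hδ hγ hγ1
  set T : ℝ := min 1 (δ / (3 * C0)) with hT
  have hT0 : 0 < T := by rw [hT]; positivity
  have hT1 : T ≤ 1 := min_le_left _ _
  set θ0 : ℝ := min (T ^ (100 : ℝ)) (γ ^ (10 : ℝ)) with hθ0
  have h0 : 0 < θ0 := lt_min (Real.rpow_pos_of_pos hT0 _) (Real.rpow_pos_of_pos hγ _)
  have h01 : θ0 ≤ 1 := (min_le_left _ _).trans (Real.rpow_le_one hT0.le hT1 (by norm_num))
  have hTr : θ0 ^ (1 / 100 : ℝ) ≤ T := by
    have h2 : θ0 ^ (1 / 100 : ℝ) ≤ (T ^ (100 : ℝ)) ^ (1 / 100 : ℝ) :=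
      Real.rpow_le_rpow h0.le (min_le_left _ _) (by norm_num)
    rw [← Real.rpow_mul hT0.le] at h2
    norm_num at h2
    exact h2
  have hγr : θ0 ^ (1 / 10 : ℝ) ≤ γ := by
    have h2 : θ0 ^ (1 / 10 : ℝ) ≤ (γ ^ (10 : ℝ)) ^ (1 / 10 : ℝ) :=
      Real.rpow_le_rpow h0.le (min_le_right _ _) (by norm_num)
    rw [← Real.rpow_mul hγ.le] at h2
    norm_num at h2
    exact h2
  have hTC : θ0 ^ (1 / 100 : ℝ) * (3 * C0) ≤ δ := by
    have h3 : T ≤ δ / (3 * C0) := min_le_right _ _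
    have h4 : T * (3 * C0) ≤ δ := by
      rw [← le_div_iff₀ (by linarith)]
      exact h3
    have h5 := mul_le_mul_of_nonneg_right hTr (by linarith : 0 ≤ 3 * C0)
    linarith
  refine ⟨θ0, h0, h01, ?_⟩
  intro ι _ P W th B g A hch hg hA hpr
  have hA0 := hprof ι W g (fun i => th i ^ (1 / 200 : ℝ)) A hA
    (fun i hi => Real.rpow_nonneg (hch.pos i hi).le _) hpr
  -- the total cost
  set TT0 : ℝ := θ0 ^ (1 / 100 : ℝ) with hTT0
  have hTT0p : 0 ≤ TT0 := Real.rpow_nonneg h0.le _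
  have hcost : ∑ i ∈ W, TT0 * (th i ^ (1 / 200 : ℝ) * uu (g i)) ≤ TT0 * (C0 * A) := by
    rw [← Finset.mul_sum]
    exact mul_le_mul_of_nonneg_left hA0 hTT0p
  have hterm : ∀ i ∈ W, 0 ≤ TT0 * (th i ^ (1 / 200 : ℝ) * uu (g i)) := by
    intro i hi
    exact mul_nonneg hTT0p (mul_nonneg (Real.rpow_nonneg (hch.pos i hi).le _) (uu_nonneg _))
  have hδA : 3 * (TT0 * (C0 * A)) ≤ δ * A := by
    have := mul_le_mul_of_nonneg_right hTC hA
    linarith
  have hK0 : 0 ≤ TT0 * (C0 * A) := by positivity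
  set AA : ι → ℝ := fun j => th j ^ (-(9 / 10) : ℝ) with hAA
  set S : Finset ι := W.filter (fun j => th j ^ (1 / 10 : ℝ) ≤ |g j| ∧ |g j| < AA j) with hS
  have hSW : S ⊆ W := Finset.filter_subset _ _
  have hSp : ∀ j ∈ S, 0 < |g j| := by
    intro j hj
    have h1 := (Finset.mem_filter.mp hj).2.1
    exact (Real.rpow_pos_of_pos (hch.pos j (hSW hj)) _).trans_le h1
  have hAp : ∀ j ∈ W, 0 < AA j := fun j hj => Real.rpow_pos_of_pos (hch.pos j hj) _
  have hA1 : ∀ j ∈ W, 1 ≤ AA j := by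
    intro j hj
    rw [hAA]
    exact Real.one_le_rpow_of_pos_of_le_one_of_nonpos (hch.pos j hj)
      ((hch.le j hj).trans h01) (by norm_num)
  set sgn : ι → ℝ := fun j => if 0 ≤ g j then 1 else -1 with hsgn
  have hsg : ∀ j, sgn j * |g j| = g j := by
    intro j
    rw [hsgn]
    simp only
    split_ifs with h
    · rw [abs_of_nonneg h, one_mul]
    · rw [abs_of_neg (not_le.1 h)]; ring
  have hsg2 : ∀ j, sgn j ^ 2 = 1 := by
    intro j
    rw [hsgn]
    simp only
    split_ifs <;> norm_num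
  have hsg3 : ∀ j, |sgn j| = 1 := by
    intro j
    rw [hsgn]
    simp only
    split_ifs <;> norm_num
  obtain ⟨ε, hε, hch1⟩ := choose_eps S Wᶜ (fun j => sgn j * AA j) (fun j => |g j| / AA j)
    (fun j => AA j ^ (19 / 20 : ℝ)) B (by
      intro j hj
      have h1 := (Finset.mem_filter.mp hj).2.2
      have h2 := hAp j (hSW hj)
      refine ⟨by positivity, ?_⟩
      rw [div_le_one h2]
      exact h1.le)
  have hpa : ∀ j ∈ S, |g j| / AA j * (sgn j * AA j) = g j := by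
    intro j hj
    have h2 := hAp j (hSW hj)
    have h3 : |g j| / AA j * (sgn j * AA j) = sgn j * |g j| := by
      field_simp
    rw [h3, hsg j]
  -- the right hand side
  have hR : ∑ j ∈ S, (|g j| / AA j * (sgn j * AA j) ^ 2 * ∑ i ∈ Wᶜ, B j i ^ 2
      + |g j| / AA j * AA j ^ (19 / 20 : ℝ)) ≤ 2 * (TT0 * (C0 * A)) := by
    have h1 : ∀ j ∈ S, |g j| / AA j * (sgn j * AA j) ^ 2 * ∑ i ∈ Wᶜ, B j i ^ 2
        + |g j| / AA j * AA j ^ (19 / 20 : ℝ) ≤ 2 * (TT0 * (th j ^ (1 / 200 : ℝ) * uu (g j))) := by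
      intro j hj
      obtain ⟨hjW, hj1, hj2⟩ := Finset.mem_filter.mp hj
      have h2 := hAp j hjW
      have p1 := pt1 (hch.pos j hjW) (hch.le j hjW) h01 (hSp j hj) hj1 hj2
      have p2 := pt2 (hch.pos j hjW) (hch.le j hjW) h01 (hSp j hj) hj1 hj2
      have e1 : |g j| / AA j * (sgn j * AA j) ^ 2 = |g j| * AA j := by
        rw [mul_pow, hsg2, one_mul]
        field_simp
      rw [e1]
      have h3 := mul_le_mul_of_nonneg_left (hch.sm j hjW)
        (mul_nonneg (abs_nonneg (g j)) h2.le)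
      have h4 : |g j| * AA j * th j ≤ TT0 * (th j ^ (1 / 200 : ℝ) * uu (g j)) := p1
      have h5 : |g j| / AA j * AA j ^ (19 / 20 : ℝ) ≤ TT0 * (th j ^ (1 / 200 : ℝ) * uu (g j)) := p2
      linarith
    refine (Finset.sum_le_sum h1).trans ?_
    rw [← Finset.mul_sum]
    have h2 : ∑ j ∈ S, TT0 * (th j ^ (1 / 200 : ℝ) * uu (g j))
        ≤ ∑ j ∈ W, TT0 * (th j ^ (1 / 200 : ℝ) * uu (g j)) :=
      Finset.sum_le_sum_of_subset_of_nonneg hSW (fun i hi _ => hterm i hi)
    linarith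
  have htot := hch1.trans hR
  set noise : ℝ := ∑ i ∈ Wᶜ, (∑ j ∈ S, (ε j - |g j| / AA j) * (sgn j * AA j) * B j i) ^ 2 with hno
  have hno0 : 0 ≤ noise := Finset.sum_nonneg fun _ _ => sq_nonneg _
  have hep : ∀ j, 0 ≤ ε j := by
    intro j
    rcases hε j with h | h <;> rw [h] <;> norm_num
  have hnu0 : 0 ≤ ∑ j ∈ S, ε j * AA j ^ (19 / 20 : ℝ) := by
    refine Finset.sum_nonneg fun j hj => ?_
    exact mul_nonneg (hep j) (Real.rpow_nonneg (hAp j (hSW hj)).le _)
  -- the new vector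
  set c : ι → ℝ := fun j => (ε j - |g j| / AA j) * (sgn j * AA j) with hc
  set g' : ι → ℝ := fun i => g i + ∑ j ∈ S, c j * B j i with hg'
  have hval : ∀ k ∈ W, g' k = if k ∈ S then ε k * (sgn k * AA k) else g k := by
    intro k hk
    rw [hg']
    simp only
    by_cases hkS : k ∈ S
    · rw [if_pos hkS, Finset.sum_eq_single k]
      · rw [hch.one k hk, mul_one, hc]
        simp only
        have := hpa k hkS
        rw [sub_mul, this]
        ring
      · intro j hj hjk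
        rw [hch.off j (hSW hj) k hk (Ne.symm hjk), mul_zero]
      · intro h; exact absurd hkS h
    · rw [if_neg hkS, Finset.sum_eq_zero, add_zero]
      intro j hj
      rw [hch.off j (hSW hj) k hk (fun h => hkS (h ▸ hj)), mul_zero]
  refine ⟨g', ap_comb P S c g B hg (fun j hj => hch.rg j (hSW hj)), ?_, ?_, ?_⟩
  · -- noise
    have e : ∑ i ∈ Wᶜ, (g' i - g i) ^ 2 = noise := by
      rw [hno, hg']
      refine Finset.sum_congr rfl fun i _ => ?_
      congr 1
      simp only [add_sub_cancel_left]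
      rfl
    rw [e]
    linarith
  · -- the weight
    have h1 : nu g' (W.filter (fun i => γ ≤ |g' i|))
        ≤ ∑ j ∈ S, ε j * AA j ^ (19 / 20 : ℝ)
          + ∑ j ∈ W, TT0 * (th j ^ (1 / 200 : ℝ) * uu (g j)) := by
      unfold nu
      have h2 : ∀ i ∈ W.filter (fun i => γ ≤ |g' i|), |g' i| ^ (19 / 20 : ℝ)
          ≤ (if i ∈ S then ε i * AA i ^ (19 / 20 : ℝ) else 0)
            + TT0 * (th i ^ (1 / 200 : ℝ) * uu (g i)) := by
        intro i hi
        obtain ⟨hiW, hi2⟩ := Finset.mem_filter.mp hi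
        have h3 := hterm i hiW
        rw [hval i hiW] at hi2 ⊢
        by_cases hiS : i ∈ S
        · rw [if_pos hiS] at hi2 ⊢
          rw [if_pos hiS]
          rcases hε i with h4 | h4
          · rw [h4, zero_mul, abs_zero] at hi2
            linarith
          · rw [h4, one_mul, abs_mul, hsg3, one_mul, abs_of_pos (hAp i hiW), one_mul]
            linarith
        · rw [if_neg hiS] at hi2 ⊢
          rw [if_neg hiS, zero_add]
          have h5 : th i ^ (1 / 10 : ℝ) ≤ |g i| := by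
            refine le_trans ?_ hi2
            refine le_trans ?_ hγr
            exact Real.rpow_le_rpow (hch.pos i hiW).le (hch.le i hiW) (by norm_num)
          have h6 : AA i ≤ |g i| := by
            by_contra hcon
            exact hiS (Finset.mem_filter.mpr ⟨hiW, h5, not_le.1 hcon⟩)
          exact pt3 (hch.pos i hiW) (hch.le i hiW) h01 h6
      refine (Finset.sum_le_sum h2).trans ?_
      rw [Finset.sum_add_distrib]
      have h7 : ∑ i ∈ W.filter (fun i => γ ≤ |g' i|),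
          (if i ∈ S then ε i * AA i ^ (19 / 20 : ℝ) else 0)
          ≤ ∑ i ∈ W, (if i ∈ S then ε i * AA i ^ (19 / 20 : ℝ) else 0) := by
        refine Finset.sum_le_sum_of_subset_of_nonneg (Finset.filter_subset _ _) (fun i hi _ => ?_)
        split_ifs
        · exact mul_nonneg (hep i) (Real.rpow_nonneg (hAp i hi).le _)
        · exact le_rfl
      have h8 : ∑ i ∈ W, (if i ∈ S then ε i * AA i ^ (19 / 20 : ℝ) else 0)
          = ∑ j ∈ S, ε j * AA j ^ (19 / 20 : ℝ) := by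
        rw [← Finset.sum_filter]
        refine Finset.sum_congr ?_ (fun _ _ => rfl)
        ext i
        simp only [Finset.mem_filter]
        exact ⟨fun h => h.2, fun h => ⟨hSW h, h⟩⟩
      have h9 : ∑ i ∈ W.filter (fun i => γ ≤ |g' i|), TT0 * (th i ^ (1 / 200 : ℝ) * uu (g i))
          ≤ ∑ j ∈ W, TT0 * (th j ^ (1 / 200 : ℝ) * uu (g j)) :=
        Finset.sum_le_sum_of_subset_of_nonneg (Finset.filter_subset _ _)
          (fun i hi _ => hterm i hi)
      linarith
    linarith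
  · -- the small ones
    have h2 : ∀ i ∈ W.filter (fun i => |g' i| < γ), g' i ^ 2
        ≤ TT0 * (th i ^ (1 / 200 : ℝ) * uu (g i)) := by
      intro i hi
      obtain ⟨hiW, hi2⟩ := Finset.mem_filter.mp hi
      have h3 := hterm i hiW
      rw [hval i hiW] at hi2 ⊢
      by_cases hiS : i ∈ S
      · rw [if_pos hiS] at hi2 ⊢
        rcases hε i with h4 | h4
        · rw [h4, zero_mul]
          simpa using h3
        · rw [h4, one_mul, abs_mul, hsg3, one_mul, abs_of_pos (hAp i hiW)] at hi2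
          have := hA1 i hiW
          linarith
      · rw [if_neg hiS] at hi2 ⊢
        have h6 : |g i| < AA i := by
          have := hA1 i hiW
          linarith
        have h5 : |g i| < th i ^ (1 / 10 : ℝ) := by
          by_contra hcon
          exact hiS (Finset.mem_filter.mpr ⟨hiW, not_lt.1 hcon, h6⟩)
        exact pt4 (hch.pos i hiW) (hch.le i hiW) h01 h5
    refine (Finset.sum_le_sum h2).trans ?_
    have h9 : ∑ i ∈ W.filter (fun i => |g' i| < γ), TT0 * (th i ^ (1 / 200 : ℝ) * uu (g i))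
        ≤ ∑ j ∈ W, TT0 * (th j ^ (1 / 200 : ℝ) * uu (g j)) :=
      Finset.sum_le_sum_of_subset_of_nonneg (Finset.filter_subset _ _)
        (fun i hi _ => hterm i hi)
    linarith

end

end Pool.Agent.Helper38.ZS2
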