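import Pool.Agent.Helper38.ZS2.Stmts
import Pool.Agent.Helper38.ZS.Sign

/-!
# Zonotope signing with cheap coordinates
-/

namespace Pool.Agent.Helper38.ZS2

open Finset Pool.Agent.Helper38.ZS
open scoped Classical

theorem st_sign2 (hP : ST_PIECE2) (hB : ST_BIG) (hR : ST_REC) (hZ : ST_ZC) : ST_SIGN2 := by
  intro β hβ hβ1
  obtain ⟨C1, hC1, hP⟩ := hP β hβ hβ1
  obtain ⟨ε, hε, hε1, hR⟩ := hR β C1 hβ hβ1 hC1
  obtain ⟨γ, κ, C, hγ, hγ1, hκ, hκ1, hC, hP⟩ := hP ε hε (hε1.trans (by norm_num))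
  obtain ⟨K1, hR⟩ := hR γ C hγ hγ1 hC
  obtain ⟨K2, hZ⟩ := hZ γ κ C hγ hγ1 hκ hκ1 hC
  set K : ℝ := max (max K1 K2) (500 / β) with hK
  have hK1 : K1 ≤ K := (le_max_left _ _).trans (le_max_left _ _)
  have hK2 : K2 ≤ K := (le_max_right _ _).trans (le_max_left _ _)
  have hK3 : 500 / β ≤ K := le_max_right _ _
  have hKpos : 0 < K := lt_of_lt_of_le (by positivity) hK3
  obtain ⟨η1, L, hη1, hL, hR⟩ := hR K hK1
  obtain ⟨M1, hM1, hZ⟩ := hZ K hK2
  have hb : 0 < β ^ 2 / 4096 := by positivity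
  have hq1 : Real.exp (-(β ^ 2 / 4096)) < 1 := by
    rw [Real.exp_lt_one_iff]; linarith
  have hq0 := Real.exp_pos (-(β ^ 2 / 4096))
  -- choice of M
  have ht1 : Filter.Tendsto (fun n : ℕ => Real.exp (-(β ^ 2 / 4096)) ^ n
      / (1 - Real.exp (-(β ^ 2 / 4096)))) Filter.atTop (nhds 0) := by
    have := (tendsto_pow_atTop_nhds_zero_of_lt_one hq0.le hq1).div_const
      (1 - Real.exp (-(β ^ 2 / 4096)))
    simpa using this
  have ht2 : Filter.Tendsto (fun n : ℕ => Real.exp (-(β ^ 2 / 2048)) ^ n) Filter.atTop (nhds 0) := by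
    refine tendsto_pow_atTop_nhds_zero_of_lt_one (Real.exp_pos _).le ?_
    rw [Real.exp_lt_one_iff]
    have : 0 < β ^ 2 / 2048 := by positivity
    linarith
  have he1 := ht1.eventually (gt_mem_nhds (show (0 : ℝ) < β ^ 2 / (4096 * C1) / 2 by positivity))
  have he2 := ht2.eventually (gt_mem_nhds (show (0 : ℝ) < 1 / 2 by norm_num))
  obtain ⟨M, hMa, hMb, hMc⟩ := (he1.and (he2.and (Filter.eventually_ge_atTop (⌈M1⌉₊ + 1)))).exists
  have hMM1 : M1 ≤ M := by
    have h1 := Nat.le_ceil M1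
    have h2 : ((⌈M1⌉₊ + 1 : ℕ) : ℝ) ≤ M := by exact_mod_cast hMc
    push_cast at h2
    linarith
  have hM1' : 1 ≤ M := by omega
  obtain ⟨η2, hη2, hB⟩ := hB C M hC (by exact_mod_cast hM1')
  obtain ⟨θ0, hθ0, hθ1, hP⟩ := hP L hL
  refine ⟨min η1 η2, L, θ0, lt_min hη1 hη2, hL, hθ0, hθ1, ?_⟩
  intro ι _ P V W th B hPr hPV hVW hch
  have hcnt : ∀ (n : ℕ) (v : ι) (F : Finset (ι → ℤ)), M ≤ n →
      (∀ z ∈ F, IsZ P γ κ C n K z ∧ 1 < |fd P K z v|) →
      (#F : ℝ) ≤ Real.exp (β ^ 2 / 8192 * n) := by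
    intro n v F hMn hF
    have h1 := hZ ι P n v F hPr (hMM1.trans (by exact_mod_cast hMn)) hF
    refine h1.trans (Real.exp_le_exp.2 ?_)
    have h2 : 500 ≤ K * β := by
      rw [div_le_iff₀ hβ] at hK3
      exact hK3
    have h3 : 250000 ≤ K ^ 2 * β ^ 2 := by nlinarith
    have h4 : 25 / K ^ 2 ≤ β ^ 2 / 8192 := by
      rw [div_le_div_iff₀ (by positivity) (by norm_num)]
      nlinarith
    calc 25 * (n : ℝ) / K ^ 2 = 25 / K ^ 2 * n := by ring
      _ ≤ β ^ 2 / 8192 * n := mul_le_mul_of_nonneg_right h4 (by positivity)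
  have hh2 : Real.exp (-(β ^ 2 / 2048 * M)) ≤ 1 / 2 := by
    have h1 : Real.exp (-(β ^ 2 / 2048 * M)) = Real.exp (-(β ^ 2 / 2048)) ^ M := by
      rw [← Real.exp_nat_mul]; congr 1; ring
    rw [h1]
    exact hMb.le
  obtain ⟨w, hw⟩ := lll_signs P V γ κ C C1 K β M hC1 hβ hM1' hcnt hh2 hMa.le
  · refine ⟨fun v => sg (w v), fun i => ?_, fun f hf => ?_⟩
    · cases h : w i <;> simp [sg, h]
    · by_contra hbad
      push Not at hbad
      obtain ⟨g, Z, m, hm, hm0, hmb, hlow, hlink, hnu, hnuM, hD, hct⟩ :=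
        hP ι P V W th B f (fun v => sg (w v)) hPr hVW hch hf (fun i _ => by
          cases h : w i <;> simp [sg, h]) hbad
      have hMm : (M : ℝ) ≤ m := hB ι P V Z g m hPr (fun i hi => (hPV i hi).trans (min_le_right _ _))
        hm hm0 hnu (hD.trans (by nlinarith))
      obtain ⟨z, hz0, hzc, hzX, hzT, hzb⟩ := hR ι P V Z g (fun v => sg (w v)) m hPr
        (fun i hi => (hPV i hi).trans (min_le_left _ _)) (fun i _ => by
          cases h : w i <;> simp [sg, h]) hm hm0 hmb hlow hnu hnuM hD hct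
      set n := ⌈m⌉₊ with hn
      have hn1 : m ≤ n := Nat.le_ceil m
      have hn2 : (n : ℝ) < m + 1 := Nat.ceil_lt_add_one hm0.le
      have hM1r : (1 : ℝ) ≤ M := by exact_mod_cast hM1'
      have hn3 : (n : ℝ) ≤ 2 * m := by linarith
      have hMn : M ≤ n := by
        have : (M : ℝ) ≤ n := hMm.trans hn1
        exact_mod_cast this
      have hpiece : Piece P γ κ C n Z g := by
        refine ⟨hlow, hlink, ?_, ?_, ?_⟩
        · exact hnu.trans (mul_le_mul_of_nonneg_left hn1 (by linarith))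
        · have h1 := nu_ge_TT V Z g
          rw [← hm] at h1
          linarith
        · have h1 : ε * m ≤ 1 * m := mul_le_mul_of_nonneg_right (hε1.trans (by norm_num)) hm0.le
          linarith
      have hIsZ : IsZ P γ κ C n K z := by
        refine ⟨Z, g, hpiece, hz0, hzc.trans ?_⟩
        rw [div_le_div_iff₀ (by positivity) (by positivity)]
        have : 0 < K ^ 100 := by positivity
        nlinarith
      have h1 := hw ⟨(n, z), hMn, hIsZ, ?_, ?_⟩
      · simp only at h1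
        have h2 : β / 16 * (n : ℝ) ≤ β / 8 * m := by nlinarith
        linarith
      · refine hzX.trans ?_
        exact mul_le_mul_of_nonneg_left hn1 (by linarith)
      · refine hzT.trans ?_
        simp only
        linarith

end Pool.Agent.Helper38.ZS2
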